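import Pool.Agent.Lib.MP_aa7e4d_lc.Interfaces

/-!
# Modules TYP1, TYP2, INDISC
-/

open FirstOrder FirstOrder.Language

namespace Pool.Agent.SFC.H35

/-! ### Tuples without parents -/

theorem ev_fixed {N : Type} {F : Frame N} {x : N} (h : ∀ i, F.f i x = x) :
    ∀ w : List Fn, F.ev w x = x
  | [] => rfl
  | i :: w => by rw [Frame.ev_cons, ev_fixed h w, h i]

/-- Two tuples of elements without parents. -/
theorem approx_fixed {N₁ N₂ : Type} {F₁ : Frame N₁} {F₂ : Frame N₂} {α : Type}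
    {u : α → N₁} {u' : α → N₂} (h1 : ∀ s i, F₁.f i (u s) = u s) (h2 : ∀ s i, F₂.f i (u' s) = u' s)
    (he : ∀ s t, u s = u t ↔ u' s = u' t) (hk : ∀ s, F₁.kind (u s) = F₂.kind (u' s))
    (hR : ∀ s t, F₁.R (u s) (u t) ↔ F₂.R (u' s) (u' t)) (d : ℕ) : Approx F₁ F₂ d u u' := by
  refine ⟨?_, ?_, ?_⟩
  · intro s t w w' _ _
    rw [ev_fixed (h1 s), ev_fixed (h1 t), ev_fixed (h2 s), ev_fixed (h2 t)]
    exact he s t
  · intro s w _
    rw [ev_fixed (h1 s), ev_fixed (h2 s)]
    exact hk s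
  · intro s t w w' _ _
    rw [ev_fixed (h1 s), ev_fixed (h1 t), ev_fixed (h2 s), ev_fixed (h2 t)]
    exact hR s t

/-- Two tuples whose iterated parents are the values of symbols. -/
theorem approx_sym {N₁ N₂ : Type} {F₁ : Frame N₁} {F₂ : Frame N₂} {α Y : Type}
    {u : α → N₁} {u' : α → N₂} (σ : List Fn → α → Y) (v : Y → N₁) (v' : Y → N₂)
    (h1 : ∀ w s, F₁.ev w (u s) = v (σ w s)) (h2 : ∀ w s, F₂.ev w (u' s) = v' (σ w s))
    (he : ∀ y z, v y = v z ↔ v' y = v' z) (hk : ∀ y, F₁.kind (v y) = F₂.kind (v' y))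
    (hR : ∀ y z, F₁.R (v y) (v z) ↔ F₂.R (v' y) (v' z)) (d : ℕ) : Approx F₁ F₂ d u u' := by
  refine ⟨?_, ?_, ?_⟩
  · intro s t w w' _ _
    rw [h1, h1, h2, h2]
    exact he _ _
  · intro s w _
    rw [h1, h2]
    exact hk _
  · intro s t w w' _ _
    rw [h1, h1, h2, h2]
    exact hR _ _

/-! ### Facts on the configuration -/

section

variable {N : Type} {F : Frame N} {e : N} {c a b h : ℕ → N} (H : Config F e c a b h)

include H

theorem a_ne_b (i j : ℕ) : a i ≠ b j := fun hh => by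
  have h1 := H.kind_a i
  rw [hh, H.kind_b j] at h1
  cases h1

theorem c_ne_b (i j : ℕ) : c i ≠ b j := fun hh => by
  have h1 := H.kind_c i
  rw [hh, H.kind_b j] at h1
  cases h1

theorem c_ne_h (i j : ℕ) : c i ≠ h j := fun hh => by
  have h1 := H.kind_c i
  rw [hh, H.kind_h j] at h1
  cases h1

theorem e_ne_a (i : ℕ) : e ≠ a i := fun hh => by
  have h1 := H.kind_e
  rw [hh, H.kind_a i] at h1
  cases h1

theorem e_ne_b (i : ℕ) : e ≠ b i := fun hh => by
  have h1 := H.kind_e
  rw [hh, H.kind_b i] at h1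
  cases h1

theorem e_ne_c (i : ℕ) : e ≠ c i := fun hh => by
  have h1 := H.kind_e
  rw [hh, H.kind_c i] at h1
  cases h1

theorem e_ne_h (i : ℕ) : e ≠ h i := fun hh => by
  have h1 := H.kind_e
  rw [hh, H.kind_h i] at h1
  cases h1

theorem a_ne_c (i j : ℕ) : a i ≠ c j := fun hh => by
  have h1 := H.p_a i
  rw [hh, H.f_c j] at h1
  exact e_ne_c H j h1.symm

theorem b_ne_h (i j : ℕ) : b i ≠ h j := fun hh => by
  have h1 := H.p_b i
  rw [hh, H.f_h j] at h1
  exact e_ne_h H j h1.symm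

theorem f_a (i : ℕ) : F.f .r0 (a i) = a i ∧ F.f .r1 (a i) = a i := by
  constructor
  · by_contra hne
    have h1 := F.f_ok .r0 (a i) hne
    rw [H.kind_a i] at h1
    simp [ok] at h1
  · by_contra hne
    have h1 := F.f_ok .r1 (a i) hne
    rw [H.kind_a i] at h1
    simp [ok] at h1

theorem f_b (i : ℕ) : F.f .r0 (b i) = b i ∧ F.f .r1 (b i) = b i := by
  constructor
  · by_contra hne
    have h1 := F.f_ok .r0 (b i) hne
    rw [H.kind_b i] at h1
    simp [ok] at h1
  · by_contra hne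
    have h1 := F.f_ok .r1 (b i) hne
    rw [H.kind_b i] at h1
    simp [ok] at h1

end

/-- the iterated parents of a child of a line without parents -/
theorem ev_child {N : Type} {F : Frame N} {e x : N} (he : ∀ i, F.f i e = e)
    (hp : F.f .p x = e) (h0 : F.f .r0 x = x) (h1 : F.f .r1 x = x) :
    ∀ w : List Fn, F.ev w x = if Fn.p ∈ w then e else x
  | [] => by simp
  | i :: w => by
    rw [Frame.ev_cons, ev_child he hp h0 h1 w]
    by_cases h : Fn.p ∈ w
    · rw [if_pos h, if_pos (List.mem_cons_of_mem _ h), he]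
    · rw [if_neg h]
      cases i with
      | p => rw [hp, if_pos List.mem_cons_self]
      | r0 =>
        rw [h0, if_neg]
        simp [h]
      | r1 =>
        rw [h1, if_neg]
        simp [h]

/-! ### TYP1 -/

/-- the symbols for the elements which occur in TYP1 -/
inductive Sy
  | e
  | a
  | b
  | c (n : ℕ)

/-- the values of the symbols -/
def Sy.val {N : Type} (e : N) (c : ℕ → N) (a b : N) : Sy → N
  | .e => e
  | .a => a
  | .b => b
  | .c n => c n

/-- the symbol of an iterated parent -/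
def sg {r : ℕ} (d : Fin r → ℕ ⊕ Unit) (w : List Fn) : Fin 1 ⊕ Fin r → Sy
  | .inl _ => if Fn.p ∈ w then .e else .a
  | .inr m => match d m with
    | .inl n => .c n
    | .inr _ => if Fn.p ∈ w then .e else .b

theorem val_inj {N : Type} {F : Frame N} {e : N} {c a b h : ℕ → N} (H : Config F e c a b h)
    (i j : ℕ) (y z : Sy) : Sy.val e c (a i) (b j) y = Sy.val e c (a i) (b j) z ↔ y = z := by
  have h1 := a_ne_b H i j
  have h2 := e_ne_a H i
  have h3 := e_ne_b H j
  cases y <;> cases z <;>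
    simp [Sy.val, h1, h1.symm, h2, h2.symm, h3, h3.symm, e_ne_c H, (e_ne_c H _).symm, a_ne_c H,
      (a_ne_c H _ _).symm, c_ne_b H, (c_ne_b H _ _).symm, H.inj_c.eq_iff]

theorem val_kind {N : Type} {F : Frame N} {e : N} {c a b h : ℕ → N} (H : Config F e c a b h)
    (i j i' j' : ℕ) (y : Sy) :
    F.kind (Sy.val e c (a i) (b j) y) = F.kind (Sy.val e c (a i') (b j') y) := by
  cases y <;> simp [Sy.val, H.kind_a, H.kind_b]

theorem val_R {N : Type} {F : Frame N} {e : N} {c a b h : ℕ → N} (H : Config F e c a b h)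
    (i j : ℕ) (hij : i < j) (y z : Sy) :
    F.R (Sy.val e c (a i) (b j) y) (Sy.val e c (a i) (b j) z) ↔
      (y = .a ∧ z = .b) ∨ (y = .b ∧ z = .a) := by
  have s : ∀ x y, F.R x y ↔ F.R y x := fun x y => ⟨F.R_symm x y, F.R_symm y x⟩
  have h1 : F.R (a i) (b j) := (H.R_ab i j).2 hij
  have h2 : F.R (b j) (a i) := F.R_symm _ _ h1
  have h3 : ¬ F.R (a i) e := fun hh => H.R_ea i (F.R_symm _ _ hh)
  have h4 : ¬ F.R (b j) e := fun hh => H.R_eb j (F.R_symm _ _ hh)
  have h5 : ∀ n, ¬ F.R (c n) e := fun n hh => H.R_ec n (F.R_symm _ _ hh)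
  have h6 : ∀ n, ¬ F.R (a i) (c n) := fun n hh => H.R_ca n i (F.R_symm _ _ hh)
  have h7 : ∀ n, ¬ F.R (b j) (c n) := fun n hh => H.R_cb n j (F.R_symm _ _ hh)
  cases y <;> cases z <;>
    simp [Sy.val, h1, h2, h3, h4, h5, h6, h7, F.R_irrefl, H.R_ea, H.R_eb, H.R_ec, H.R_ca, H.R_cb,
      H.R_cc]

theorem ev_val {N : Type} {F : Frame N} {e : N} {c a b h : ℕ → N} (H : Config F e c a b h)
    (i j : ℕ) {r : ℕ} (d : Fin r → ℕ ⊕ Unit) (w : List Fn) (s : Fin 1 ⊕ Fin r) :
    F.ev w (Sum.elim (fun _ => a i) (tup c b j d) s) =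
      Sy.val e c (a i) (b j) (sg d w s) := by
  cases s with
  | inl t =>
    show F.ev w (a i) = _
    rw [ev_child H.f_e (H.p_a i) (f_a H i).1 (f_a H i).2]
    unfold sg
    by_cases hp : Fn.p ∈ w <;> simp [hp, Sy.val]
  | inr m =>
    show F.ev w (Sum.elim c (fun _ => b j) (d m)) = Sy.val e c (a i) (b j) (match d m with
      | .inl n => .c n
      | .inr _ => if Fn.p ∈ w then .e else .b)
    cases d m with
    | inl n =>
      show F.ev w (c n) = c n
      exact ev_fixed (H.f_c n) w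
    | inr t =>
      show F.ev w (b j) = _
      rw [ev_child H.f_e (H.p_b j) (f_b H j).1 (f_b H j).2]
      by_cases hp : Fn.p ∈ w <;> simp [hp, Sy.val]

theorem typ1 : Typ1Statement := by
  intro hdet N _ F hF hC e c a b h H r d φ i j i' j' hij hij'
  obtain ⟨D, hD⟩ := hdet _ φ
  refine hD N N F F hF hF hC hC _ _ ?_
  refine approx_sym (sg d) (Sy.val e c (a i) (b j)) (Sy.val e c (a i') (b j'))
    (ev_val H i j d) (ev_val H i' j' d) ?_ (val_kind H i j i' j') ?_ D
  · intro y z
    rw [val_inj H, val_inj H]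
  · intro y z
    rw [val_R H i j hij, val_R H i' j' hij']

/-! ### TYP2 -/

theorem typ2 : Typ2Statement := by
  intro hdet hr1 hr2 N _ F hF hC e c a b h H r d φ i j k hij hd
  obtain ⟨D, hD⟩ := hdet _ φ
  have hnR : ¬ F.R (a i) (b j) := fun hh => by
    have := (H.R_ab i j).1 hh
    omega
  obtain ⟨F', hF', hC', hk', hR', ha', hb', hx'⟩ := hr2 N F hF hC (a i) (b j) e (H.kind_a i)
    (H.kind_b j) H.kind_e H.f_e (H.p_a i) (H.p_b j) hnR
  obtain ⟨F'', hF'', hC'', hk'', hR'', hb'', hx''⟩ := hr1 N F hF hC (b 1) e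
    (H.kind_b 1) H.kind_e H.f_e (H.p_b 1)
  have hc' : ∀ n t, F'.f t (c n) = c n := fun n t => by
    rw [hx' (c n) (a_ne_c H i n).symm (c_ne_b H n j) (e_ne_c H n).symm, H.f_c]
  have hc'' : ∀ n t, F''.f t (c n) = c n := fun n t => by
    rw [hx'' (c n) (c_ne_b H n 1) (e_ne_c H n).symm, H.f_c]
  refine hD N N F' F'' hF' hF'' hC' hC'' _ _ ?_
  have h3 : ¬ F.R (b j) (a i) := fun hh => hnR (F.R_symm _ _ hh)
  have h6 : ∀ n, ¬ F.R (a i) (c n) := fun n hh => H.R_ca n i (F.R_symm _ _ hh)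
  have h7 : ∀ j n, ¬ F.R (b j) (c n) := fun j n hh => H.R_cb n j (F.R_symm _ _ hh)
  refine approx_fixed ?_ ?_ ?_ ?_ ?_ D
  · rintro (s | s) t
    · exact ha' t
    · show F'.f t (Sum.elim c (fun _ => b j) (d s)) = Sum.elim c (fun _ => b j) (d s)
      rcases d s with n | _
      · exact hc' n t
      · exact hb' t
  · rintro (s | s) t
    · exact hc'' k t
    · show F''.f t (Sum.elim c (fun _ => b 1) (d s)) = Sum.elim c (fun _ => b 1) (d s)
      rcases d s with n | _
      · exact hc'' n t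
      · exact hb'' t
  · rintro (s | s) (t | t)
    · simp
    · have hdt := hd t
      show a i = Sum.elim c (fun _ => b j) (d t) ↔ c k = Sum.elim c (fun _ => b 1) (d t)
      rcases hh : d t with n | _
      · have hn : k ≠ n := fun hkn => hdt (by rw [hh, hkn])
        simp [a_ne_c H, H.inj_c.eq_iff, hn]
      · simp [a_ne_b H, c_ne_b H]
    · have hds := hd s
      show Sum.elim c (fun _ => b j) (d s) = a i ↔ Sum.elim c (fun _ => b 1) (d s) = c k
      rcases hh : d s with n | _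
      · have hn : n ≠ k := fun hkn => hds (by rw [hh, hkn])
        simp [(a_ne_c H i n).symm, H.inj_c.eq_iff, hn]
      · simp [(a_ne_b H i j).symm, (c_ne_b H k 1).symm]
    · show Sum.elim c (fun _ => b j) (d s) = Sum.elim c (fun _ => b j) (d t) ↔
        Sum.elim c (fun _ => b 1) (d s) = Sum.elim c (fun _ => b 1) (d t)
      rcases d s with n | _ <;> rcases d t with m | _ <;>
        simp [c_ne_b H, (c_ne_b H _ _).symm]
  · rintro (s | s)
    · show F'.kind (a i) = F''.kind (c k)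
      rw [hk', hk'', H.kind_a, H.kind_c]
    · show F'.kind (Sum.elim c (fun _ => b j) (d s)) = F''.kind (Sum.elim c (fun _ => b 1) (d s))
      rw [hk', hk'']
      rcases d s with n | _
      · rfl
      · show F.kind (b j) = F.kind (b 1)
        rw [H.kind_b, H.kind_b]
  · rw [hR', hR'']
    rintro (s | s) (t | t)
    · show F.R (a i) (a i) ↔ F.R (c k) (c k)
      simp [F.R_irrefl]
    · show F.R (a i) (Sum.elim c (fun _ => b j) (d t)) ↔
        F.R (c k) (Sum.elim c (fun _ => b 1) (d t))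
      rcases d t with n | _
      · simp [h6, H.R_cc]
      · simp [hnR, H.R_cb]
    · show F.R (Sum.elim c (fun _ => b j) (d s)) (a i) ↔
        F.R (Sum.elim c (fun _ => b 1) (d s)) (c k)
      rcases d s with n | _
      · simp [H.R_ca, H.R_cc]
      · simp [h3, h7]
    · show F.R (Sum.elim c (fun _ => b j) (d s)) (Sum.elim c (fun _ => b j) (d t)) ↔
        F.R (Sum.elim c (fun _ => b 1) (d s)) (Sum.elim c (fun _ => b 1) (d t))
      rcases d s with n | _ <;> rcases d t with m | _ <;>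
        simp [h7, H.R_cb, H.R_cc, F.R_irrefl]

/-! ### INDISC -/

theorem indisc : IndiscStatement := by
  intro hdet hr1 N _ F hF hC e c a b h H n m ψ cc hcc f g hf hg
  obtain ⟨D, hD⟩ := hdet _ ψ
  obtain ⟨F', hF', hC', hk', hR', hb', hx'⟩ := hr1 N F hF hC (b 1) e
    (H.kind_b 1) H.kind_e H.f_e (H.p_b 1)
  have hc' : ∀ n t, F'.f t (c n) = c n := fun n t => by
    rw [hx' (c n) (c_ne_b H n 1) (e_ne_c H n).symm, H.f_c]
  have hh' : ∀ n t, F'.f t (h n) = h n := fun n t => by
    rw [hx' (h n) (b_ne_h H 1 n).symm (e_ne_h H n).symm, H.f_h]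
  set z : ℕ → N := fun n => if n = 0 then b 1 else h n with hz
  have z_f : ∀ n t, F'.f t (z n) = z n := by
    intro n t
    by_cases h0 : n = 0
    · simp only [hz, h0, if_true]; exact hb' t
    · simp only [hz, h0, if_false]; exact hh' n t
  have z_kind : ∀ n, F.kind (z n) = .B := by
    intro n
    by_cases h0 : n = 0
    · simp only [hz, h0, if_true]; exact H.kind_b 1
    · simp only [hz, h0, if_false]; exact H.kind_h n
  have z_inj : ∀ n m, z n = z m ↔ n = m := by
    intro n m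
    constructor
    · intro hnm
      by_cases h0 : n = 0 <;> by_cases h1 : m = 0
      · rw [h0, h1]
      · simp only [hz, h0, h1, if_true, if_false] at hnm
        exact absurd hnm (b_ne_h H 1 m)
      · simp only [hz, h0, h1, if_true, if_false] at hnm
        exact absurd hnm.symm (b_ne_h H 1 n)
      · simp only [hz, h0, h1, if_false] at hnm
        exact H.inj_h hnm
    · rintro rfl; rfl
  have z_R : ∀ n m, ¬ F.R (z n) (z m) := by
    intro n m
    by_cases h0 : n = 0 <;> by_cases h1 : m = 0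
    · simp only [hz, h0, h1, if_true]; exact F.R_irrefl _
    · simp only [hz, h0, h1, if_true, if_false]; exact H.R_bh 1 m
    · simp only [hz, h0, h1, if_true, if_false]
      exact fun hh => H.R_bh 1 n (F.R_symm _ _ hh)
    · simp only [hz, h0, h1, if_false]; exact H.R_hh n m
  have z_c : ∀ n m, ¬ F.R (c m) (z n) := by
    intro n m
    by_cases h0 : n = 0
    · simp only [hz, h0, if_true]; exact H.R_cb m 1
    · simp only [hz, h0, if_false]; exact H.R_ch m n
  have z_c' : ∀ n m, ¬ F.R (z n) (c m) := fun n m hh => z_c n m (F.R_symm _ _ hh)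
  have z_ne : ∀ n m, z n ≠ c m := fun n m hh => by
    have h1 := z_kind n
    rw [hh, H.kind_c m] at h1
    cases h1
  choose cn hcn using hcc
  have hcc2 : cc = fun s => c (cn s) := funext fun s => (hcn s).symm
  refine hD N N F' F' hF' hF' hC' hC' _ _ ?_
  subst hcc2
  refine approx_fixed ?_ ?_ ?_ ?_ ?_ D
  · rintro (s | s) t
    · exact z_f _ t
    · exact hc' _ t
  · rintro (s | s) t
    · exact z_f _ t
    · exact hc' _ t
  · rintro (s | s) (t | t)
    · show z (f s.1) = z (f t.1) ↔ z (g s.1) = z (g t.1)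
      rw [z_inj, z_inj, hf.injective.eq_iff, hg.injective.eq_iff]
    · show z (f s.1) = c (cn t) ↔ z (g s.1) = c (cn t)
      simp [z_ne]
    · show c (cn s) = z (f t.1) ↔ c (cn s) = z (g t.1)
      simp [(z_ne _ _).symm]
    · rfl
  · rintro (s | s)
    · show F'.kind (z (f s.1)) = F'.kind (z (g s.1))
      rw [hk', z_kind, z_kind]
    · rfl
  · rw [hR']
    rintro (s | s) (t | t)
    · show F.R (z (f s.1)) (z (f t.1)) ↔ F.R (z (g s.1)) (z (g t.1))
      simp [z_R]
    · show F.R (z (f s.1)) (c (cn t)) ↔ F.R (z (g s.1)) (c (cn t))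
      simp [z_c']
    · show F.R (c (cn s)) (z (f t.1)) ↔ F.R (c (cn s)) (z (g t.1))
      simp [z_c]
    · rfl

end Pool.Agent.SFC.H35
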